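import Pool.Agent.Helper38.Foliated.Defs
import Pool.Agent.Helper38.Fol.Morph2
import Pool.Agent.Helper38.Fol.ProjX

open AlgebraicGeometry CategoryTheory

set_option linter.all false

noncomputable section
namespace Pool.Agent.Helper38.Foliated

attribute [local instance] MvPolynomial.gradedAlgebra

/-- The threefold. -/
abbrev VN : Variety where
  X := Fol.VX.X
  str := Fol.VX.str
  integral := Fol.VX.integral
  separated := Fol.VX.separated
  locallyOfFiniteType := Fol.VX.locallyOfFiniteType
  quasiCompact := Fol.VX.quasiCompact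

/-- The foliation. -/
def FN : Foliation VN where
  T := Fol.FX.T
  lie_mem := Fol.FX.lie_mem

lemma projective_VN : VN.IsProjective := Fol.VX_projective

lemma rank_FN : FN.rank = 1 := Fol.rank_FX

lemma pull_eq_stalk {K : CommRingCat.{0}} [IsLocalRing K] {W : Scheme.{0}} (g : Spec K ⟶ W)
    (U : W.Opens) (hU : ⊤ ≤ g ⁻¹ᵁ U) (h : g (IsLocalRing.closedPoint K) ∈ U) (s : Γ(W, U)) :
    Fol.pull g U hU s =
      (Scheme.stalkClosedPointTo g).hom (W.presheaf.germ U _ h s) := by
  have h1 := Scheme.germ_stalkClosedPointTo g U h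
  have h2 := congrArg (fun φ => φ.hom s) h1
  refine Eq.trans ?_ h2.symm
  rfl

lemma forall_pull_iff {K : CommRingCat.{0}} [IsLocalRing K] {W : Scheme.{0}} (g : Spec K ⟶ W)
    (P : K → Prop) : (∀ (U : W.Opens) (hU : ⊤ ≤ g ⁻¹ᵁ U) (s : Γ(W, U)), P (Fol.pull g U hU s)) ↔
      ∀ s, P ((Scheme.stalkClosedPointTo g).hom s) := by
  constructor
  · intro h s
    obtain ⟨U, hU, s, rfl⟩ := W.presheaf.exists_germ_eq s
    have hU' : ⊤ ≤ g ⁻¹ᵁ U := (Scheme.preimage_eq_top_of_closedPoint_mem g hU).ge
    rw [← pull_eq_stalk g U hU' hU s]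
    exact h U hU' s
  · intro h U hU s
    rw [pull_eq_stalk g U hU (hU trivial)]
    exact h _

/-- The variety in the sense of the first set of definitions. -/
abbrev old (W : Variety) : Fol.Variety where
  X := W.X
  str := W.str
  integral := W.integral
  separated := W.separated
  locallyOfFiniteType := W.locallyOfFiniteType
  quasiCompact := W.quasiCompact

lemma induces_iff (W : Variety) (f : VN.X ⤏ W.X) :
    FN.Induces f ↔ Fol.FX.Induces (W := old W) f := by
  have h1 : ∀ D : Derivation ℂ Fol.VX.K Fol.VX.K, (∀ (U : W.X.Opens)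
      (hU : ⊤ ≤ f.fromFunctionField ⁻¹ᵁ U) (s : Γ(W.X, U)),
        D (Fol.pull f.fromFunctionField U hU s) = 0) ↔
      ∀ s, D ((Scheme.stalkClosedPointTo f.fromFunctionField).hom s) = 0 := fun D =>
    forall_pull_iff f.fromFunctionField fun x => D x = 0
  exact forall_congr' fun D => Iff.trans Iff.rfl (iff_congr Iff.rfl (h1 D).symm)

/-- The variety in the sense of the second set of definitions. -/
abbrev new (W : Fol.Variety) : Variety where
  X := W.X
  str := W.str
  integral := W.integral
  separated := W.separated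
  locallyOfFiniteType := W.locallyOfFiniteType
  quasiCompact := W.quasiCompact

lemma algInt_FN : FN.AlgebraicallyIntegrable := by
  obtain ⟨W, f, hd, hc, hI⟩ := Fol.algebraicallyIntegrable_FX
  exact ⟨new W, f, hd, hc, (induces_iff (new W) f).mpr hI⟩

lemma not_morphism_FN : ¬ FN.InducedByMorphism := by
  rintro ⟨W, f, hd, hc, hI⟩
  exact Fol.not_inducedByMorphism ⟨old W, f, hd, hc, (induces_iff W f.toRationalMap).mp hI⟩

lemma canonical_FN : FN.IsCanonical := by
  intro E hE
  let E' : Fol.DivisorOver Fol.VX :=
    { R := E.R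
      dvr := E.dvr
      const_mem := E.const_mem
      essFiniteType := E.essFiniteType
      center := E.center
      le := E.le
      dominates := E.dominates }
  exact Fol.isCanonical_FX E' hE

end Pool.Agent.Helper38.Foliated
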